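import Pool.Agent.Helper70.SK.Stmts3

set_option autoImplicit false

/-! BOXV: volume of a union of cells. -/

namespace Pool.Agent.Helper70.SK

open Finset Pool.Agent.Helper70.DK MeasureTheory

/-- the cell -/
def boxvB (m N : ℕ) (z : (Fin m → ℤ) × ℕ) : Set ((Fin m → ℝ) × ℝ) :=
  (Set.pi Set.univ fun c => Set.Ico ((z.1 c : ℝ) / N) (((z.1 c : ℝ) + 1) / N)) ×ˢ
    Set.Ico ((z.2 : ℝ) / N) (((z.2 : ℝ) + 1) / N)

theorem boxv_floor (N : ℕ) (hN : 1 ≤ N) (x : ℝ) (a : ℤ) :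
    ⌊(N : ℝ) * x⌋ = a ↔ (a : ℝ) / N ≤ x ∧ x < ((a : ℝ) + 1) / N := by
  have hN0 : (0 : ℝ) < N := by
    have : 0 < N := hN
    exact_mod_cast this
  rw [Int.floor_eq_iff, div_le_iff₀ hN0, lt_div_iff₀ hN0, mul_comm]

theorem boxv_mem (m N : ℕ) (hN : 1 ≤ N) (z : (Fin m → ℤ) × ℕ) (p : (Fin m → ℝ) × ℝ) :
    p ∈ boxvB m N z ↔ (∀ c, ⌊(N : ℝ) * p.1 c⌋ = z.1 c) ∧ ⌊(N : ℝ) * p.2⌋ = (z.2 : ℤ) := by
  have h2 := boxv_floor N hN p.2 (z.2 : ℤ)
  rw [h2]
  unfold boxvB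
  rw [Set.mem_prod, Set.mem_univ_pi]
  constructor
  · rintro ⟨h1, h3⟩
    refine ⟨fun c => (boxv_floor N hN _ _).2 (h1 c), ?_⟩
    simpa using h3
  · rintro ⟨h1, h3⟩
    refine ⟨fun c => (boxv_floor N hN _ _).1 (h1 c), ?_⟩
    simpa using h3

theorem boxv_meas (m N : ℕ) (z : (Fin m → ℤ) × ℕ) : MeasurableSet (boxvB m N z) :=
  (MeasurableSet.univ_pi fun _ => measurableSet_Ico).prod measurableSet_Ico

theorem boxv_vol (m N : ℕ) (hN : 1 ≤ N) (z : (Fin m → ℤ) × ℕ) :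
    volume (boxvB m N z) = ENNReal.ofReal (1 / (N : ℝ) ^ (m + 1)) := by
  have hN0 : (0 : ℝ) < N := by
    have : 0 < N := hN
    exact_mod_cast this
  unfold boxvB
  rw [Measure.volume_eq_prod, Measure.prod_prod, Real.volume_pi_Ico, Real.volume_Ico]
  have h1 : ∀ a : ℝ, (a + 1) / N - a / N = 1 / N := by
    intro a
    ring
  simp only [h1, Finset.prod_const, Finset.card_univ, Fintype.card_fin]
  rw [← ENNReal.ofReal_pow (by positivity), ← ENNReal.ofReal_mul (by positivity)]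
  congr 1
  rw [pow_succ, one_div_pow, one_div_mul_one_div]

theorem st_BOXV : ST_BOXV := by
  intro m N T hN hT
  have hN0 : (0 : ℝ) < N := by
    have : 0 < N := hN
    exact_mod_cast this
  have h1 : volume (⋃ z ∈ T, boxvB m N z) = ∑ z ∈ T, volume (boxvB m N z) := by
    refine measure_biUnion_finset ?_ fun z _ => boxv_meas m N z
    intro z _ z' _ hzz
    rw [Function.onFun, Set.disjoint_left]
    intro p hp hp'
    rw [boxv_mem m N hN] at hp hp'
    apply hzz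
    refine Prod.ext ?_ ?_
    · funext c
      rw [← hp.1 c, ← hp'.1 c]
    · have := hp.2.symm.trans hp'.2
      exact_mod_cast this
  have h2 : ENNReal.ofReal ((T.card : ℝ) / (N : ℝ) ^ (m + 1)) = volume (⋃ z ∈ T, boxvB m N z) := by
    rw [h1, Finset.sum_congr rfl fun z _ => boxv_vol m N hN z, Finset.sum_const, nsmul_eq_mul,
      ← ENNReal.ofReal_natCast, ← ENNReal.ofReal_mul (by positivity)]
    congr 1
    ring
  rw [h2]
  refine measure_mono ?_
  intro p hp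
  simp only [Set.mem_iUnion] at hp
  obtain ⟨z, hz, hp⟩ := hp
  rw [boxv_mem m N hN] at hp
  have hz' := hT hz
  rw [Finset.mem_product] at hz'
  obtain ⟨hz1, hz2⟩ := hz'
  rw [gr, Fintype.mem_piFinset] at hz1
  rw [Finset.mem_range] at hz2
  have key : ∀ (x : ℝ) (a : ℤ), 0 ≤ a → a < N → ⌊(N : ℝ) * x⌋ = a → 0 ≤ x ∧ x < 1 := by
    intro x a ha ha' h
    rw [boxv_floor N hN] at h
    constructor
    · refine le_trans ?_ h.1
      have : (0 : ℝ) ≤ a := by exact_mod_cast ha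
      positivity
    · refine h.2.trans_le ?_
      rw [div_le_one hN0]
      have : a + 1 ≤ (N : ℤ) := by omega
      exact_mod_cast this
  refine ⟨fun c => ?_, ?_, z, hz, hp⟩
  · have := Finset.mem_Ico.1 (hz1 c)
    exact key _ _ this.1 this.2 (hp.1 c)
  · have := key p.2 (z.2 : ℤ) (by positivity) (by exact_mod_cast hz2) hp.2
    exact ⟨this.1, this.2.le⟩

end Pool.Agent.Helper70.SK
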