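import Pool.Agent.Helper70.SK.Stmts3

set_option autoImplicit false

/-! CELL: one sheet for every cell of slopes. -/

namespace Pool.Agent.Helper70.SK

open Finset Pool.Agent.Helper70.DK MeasureTheory

theorem cell_gr (m N : ℕ) : (gr m N).card = N ^ m := by
  rw [gr, Fintype.card_piFinset]
  simp

theorem st_CELL : ST_CELL := by
  classical
  intro m N C lam O F al hN hlam hC hO hOc hF hal
  have hN0 : (0 : ℝ) < N := by
    have : 0 < N := hN
    exact_mod_cast this
  obtain ⟨occ, hocc⟩ : ∃ occ : (Fin m → ℤ) → Finset ℕ,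
      occ = fun χ => (Finset.range N).filter (fun γ => (χ, γ) ∈ O) := ⟨_, rfl⟩
  obtain ⟨lab, hlab⟩ : ∃ lab : (Fin m → ℤ) → Finset (Fin m → ℤ),
      lab = fun χ => (F.filter (fun z => z.1 = χ)).image Prod.snd := ⟨_, rfl⟩
  obtain ⟨X0, hX0⟩ : ∃ X0 : Finset (Fin m → ℤ), X0 = (gr m N).filter
      (fun χ => lam * N / 2 ≤ ((occ χ).card : ℝ) ∧ ((lab χ).card : ℝ) ≤ 4 * C / lam) := ⟨_, rfl⟩
  have hoccN : ∀ χ, ((occ χ).card : ℝ) ≤ N := by
    intro χ
    have h1 : (occ χ).card ≤ N := by
      rw [hocc]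
      exact (Finset.card_filter_le _ _).trans (by rw [Finset.card_range])
    exact_mod_cast h1
  -- sums
  have hsum1 : (O.card : ℝ) = ∑ χ ∈ gr m N, ((occ χ).card : ℝ) := by
    have h1 : O.card = ∑ χ ∈ gr m N, (occ χ).card := by
      have h2 : ∀ z ∈ O, z.1 ∈ gr m N := fun z hz => (Finset.mem_product.1 (hO hz)).1
      rw [Finset.card_eq_sum_card_fiberwise h2]
      refine Finset.sum_congr rfl fun χ _ => ?_
      rw [hocc]
      refine Finset.card_bij' (fun z _ => z.2) (fun γ _ => (χ, γ)) ?_ ?_ ?_ ?_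
      · intro z hz
        rw [Finset.mem_filter] at hz
        obtain ⟨hz1, hz2⟩ := hz
        rw [Finset.mem_filter]
        refine ⟨(Finset.mem_product.1 (hO hz1)).2, ?_⟩
        rw [← hz2]
        exact hz1
      · intro γ hγ
        rw [Finset.mem_filter] at hγ
        rw [Finset.mem_filter]
        exact ⟨hγ.2, rfl⟩
      · intro z hz
        rw [Finset.mem_filter] at hz
        rw [← hz.2]
      · intro γ hγ
        rfl
    exact_mod_cast h1
  have hsum2 : ∑ χ ∈ gr m N, ((lab χ).card : ℝ) ≤ C * (N : ℝ) ^ m := by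
    refine le_trans ?_ hF
    have h1 : ∑ χ ∈ gr m N, (lab χ).card ≤ F.card := by
      calc ∑ χ ∈ gr m N, (lab χ).card ≤ ∑ χ ∈ gr m N, (F.filter (fun z => z.1 = χ)).card := by
            refine Finset.sum_le_sum fun χ _ => ?_
            rw [hlab]
            exact Finset.card_image_le
        _ = ((gr m N).biUnion (fun χ => F.filter (fun z => z.1 = χ))).card := by
            rw [Finset.card_biUnion]
            intro χ _ χ' _ hne
            rw [Function.onFun, Finset.disjoint_left]
            intro z hz hz'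
            rw [Finset.mem_filter] at hz hz'
            exact hne (hz.2.symm.trans hz'.2)
        _ ≤ F.card := by
            refine Finset.card_le_card ?_
            intro z hz
            rw [Finset.mem_biUnion] at hz
            obtain ⟨χ, _, hz⟩ := hz
            exact (Finset.mem_filter.1 hz).1
    exact_mod_cast h1
  have hpt : ∀ χ ∈ gr m N, ((occ χ).card : ℝ) ≤ lam * N / 2 +
      N * (if χ ∈ X0 then (1 : ℝ) else 0) + N * (((lab χ).card : ℝ) * (lam / (4 * C))) := by
    intro χ hχ
    have a1 : 0 ≤ N * (((lab χ).card : ℝ) * (lam / (4 * C))) := by positivity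
    have a2 : 0 ≤ lam * N / 2 := by positivity
    by_cases h1 : χ ∈ X0
    · rw [if_pos h1]
      have := hoccN χ
      linarith
    · rw [if_neg h1]
      by_cases h2 : lam * N / 2 ≤ ((occ χ).card : ℝ)
      · have h3 : ¬ ((lab χ).card : ℝ) ≤ 4 * C / lam := by
          intro h3
          apply h1
          rw [hX0, Finset.mem_filter]
          exact ⟨hχ, h2, h3⟩
        rw [not_le, div_lt_iff₀ hlam] at h3
        have h4 : 1 ≤ ((lab χ).card : ℝ) * (lam / (4 * C)) := by
          rw [← mul_div_assoc, le_div_iff₀ (by positivity)]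
          linarith
        have h5 : (N : ℝ) * 1 ≤ N * (((lab χ).card : ℝ) * (lam / (4 * C))) :=
          mul_le_mul_of_nonneg_left h4 hN0.le
        have := hoccN χ
        linarith
      · rw [not_le] at h2
        linarith
  have hsum3 := Finset.sum_le_sum hpt
  rw [← hsum1, Finset.sum_add_distrib, Finset.sum_add_distrib, Finset.sum_const, nsmul_eq_mul,
    ← Finset.mul_sum, ← Finset.mul_sum, ← Finset.sum_mul, Finset.sum_boole, cell_gr] at hsum3
  have hfX : (gr m N).filter (fun χ => χ ∈ X0) = X0 := by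
    ext χ
    rw [Finset.mem_filter]
    constructor
    · exact fun h => h.2
    · intro h
      refine ⟨?_, h⟩
      rw [hX0] at h
      exact (Finset.mem_filter.1 h).1
  rw [hfX] at hsum3
  have hX0c : lam / 4 * (N : ℝ) ^ m ≤ X0.card := by
    have h1 : (N : ℝ) * ((∑ χ ∈ gr m N, ((lab χ).card : ℝ)) * (lam / (4 * C))) ≤
        N * ((C * (N : ℝ) ^ m) * (lam / (4 * C))) := by
      refine mul_le_mul_of_nonneg_left (mul_le_mul_of_nonneg_right hsum2 (by positivity)) hN0.le
    have h2 : N * ((C * (N : ℝ) ^ m) * (lam / (4 * C))) = N * (lam / 4 * (N : ℝ) ^ m) := by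
      field_simp
    have h3 : lam * (N : ℝ) ^ (m + 1) = N * (lam * (N : ℝ) ^ m) := by
      rw [pow_succ]
      ring
    have h4 : (((N ^ m : ℕ) : ℝ)) * (lam * N / 2) = N * (lam / 2 * (N : ℝ) ^ m) := by
      push_cast
      ring
    rw [h4] at hsum3
    rw [h3] at hOc
    have h5 : (N : ℝ) * (lam / 4 * (N : ℝ) ^ m) ≤ N * X0.card := by
      have h6 : (N : ℝ) * (lam * (N : ℝ) ^ m) = N * (lam / 4 * (N : ℝ) ^ m) +
          N * (lam / 2 * (N : ℝ) ^ m) + N * (lam / 4 * (N : ℝ) ^ m) := by ring
      linarith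
    exact le_of_mul_le_mul_left h5 hN0
  -- pigeonhole
  have hph : ∀ χ : Fin m → ℤ, ∃ a : Fin m → ℤ, χ ∈ X0 → lam ^ 2 / (8 * C) * N ≤
        (((Finset.range N).filter (fun γ => (χ, γ) ∈ O ∧ al χ γ = a)).card : ℝ) := by
    intro χ
    by_cases hχ : χ ∈ X0
    swap
    · exact ⟨0, fun h => absurd h hχ⟩
    rw [hX0, Finset.mem_filter] at hχ
    obtain ⟨_, h1, h2⟩ := hχ
    by_contra hcon
    push Not at hcon
    have hT : 0 < lam ^ 2 / (8 * C) * N := by positivity
    have hmap : ∀ γ ∈ occ χ, al χ γ ∈ lab χ := by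
      intro γ hγ
      rw [hocc, Finset.mem_filter] at hγ
      rw [hlab, Finset.mem_image]
      exact ⟨(χ, al χ γ), Finset.mem_filter.2 ⟨hal _ hγ.2, rfl⟩, rfl⟩
    have hc : ((occ χ).card : ℝ) = ∑ a ∈ lab χ,
        (((occ χ).filter (fun γ => al χ γ = a)).card : ℝ) := by
      have := Finset.card_eq_sum_card_fiberwise hmap
      exact_mod_cast this
    have hne : (lab χ).Nonempty := by
      rw [Finset.nonempty_iff_ne_empty]
      intro h
      rw [h, Finset.sum_empty] at hc
      rw [hc] at h1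
      have : 0 < lam * N / 2 := by positivity
      linarith
    have hlt : ∑ a ∈ lab χ, (((occ χ).filter (fun γ => al χ γ = a)).card : ℝ) <
        ∑ _a ∈ lab χ, (lam ^ 2 / (8 * C) * N) := by
      refine Finset.sum_lt_sum_of_nonempty hne fun a _ => ?_
      have h3 := (hcon a).2
      have h4 : (occ χ).filter (fun γ => al χ γ = a) =
          (Finset.range N).filter (fun γ => (χ, γ) ∈ O ∧ al χ γ = a) := by
        rw [hocc, Finset.filter_filter]
      rw [h4]
      exact h3
    rw [← hc, Finset.sum_const, nsmul_eq_mul] at hlt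
    have h5 : ((lab χ).card : ℝ) * (lam ^ 2 / (8 * C) * N) ≤
        4 * C / lam * (lam ^ 2 / (8 * C) * N) := mul_le_mul_of_nonneg_right h2 hT.le
    have h6 : 4 * C / lam * (lam ^ 2 / (8 * C) * N) = lam * N / 2 := by
      field_simp
      ring
    linarith
  choose α hα using hph
  refine ⟨X0, α, ?_, hX0c, fun χ hχ => hα χ hχ⟩
  rw [hX0]
  exact Finset.filter_subset _ _

end Pool.Agent.Helper70.SK
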