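import Pool.Agent.Helper5.SK.BOXV

set_option autoImplicit false

/-! OCC: a set of outer measure at least `lam` meets many cells. -/

namespace Pool.Agent.Helper70.SK

open Finset Pool.Agent.Helper70.DK MeasureTheory

theorem st_OCC : ST_OCC := by
  classical
  intro m N lam S hN hlam hS hvol
  have hN0 : (0 : ℝ) < N := by
    have : 0 < N := hN
    exact_mod_cast this
  obtain ⟨Q, hQ⟩ : ∃ Q : Finset ((Fin m → ℤ) × ℕ), Q = ((gr m N ×ˢ Finset.range N).filter
      (fun z => ∃ p ∈ S, (∀ c, ⌊(N : ℝ) * p.1 c⌋ = z.1 c) ∧ ⌊(N : ℝ) * p.2⌋ = (z.2 : ℤ))) := ⟨_, rfl⟩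
  have hcov : S ⊆ (Set.univ ×ˢ {(1 : ℝ)}) ∪ ⋃ z ∈ Q, boxvB m N z := by
    intro p hp
    obtain ⟨h1, h2⟩ := hS hp
    rcases eq_or_lt_of_le h2.2 with h3 | h3
    · left
      exact ⟨Set.mem_univ _, h3⟩
    · right
      have key : ∀ x : ℝ, 0 ≤ x → x < 1 → 0 ≤ ⌊(N : ℝ) * x⌋ ∧ ⌊(N : ℝ) * x⌋ < (N : ℤ) := by
        intro x hx0 hx1
        refine ⟨Int.floor_nonneg.2 (by positivity), ?_⟩
        rw [Int.floor_lt]
        push_cast
        nlinarith
      have h4 := key p.2 h2.1 h3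
      have h5 : ((⌊(N : ℝ) * p.2⌋.toNat : ℕ) : ℤ) = ⌊(N : ℝ) * p.2⌋ := Int.toNat_of_nonneg h4.1
      simp only [Set.mem_iUnion]
      refine ⟨((fun c => ⌊(N : ℝ) * p.1 c⌋), ⌊(N : ℝ) * p.2⌋.toNat), ?_, ?_⟩
      · rw [hQ, Finset.mem_filter, Finset.mem_product, gr, Fintype.mem_piFinset,
          Finset.mem_range]
        refine ⟨⟨fun c => Finset.mem_Ico.2 (key _ (h1 c).1 (h1 c).2), ?_⟩, p, hp,
          fun c => rfl, h5.symm⟩
        have := h4.2
        rw [← h5] at this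
        exact_mod_cast this
      · rw [boxv_mem m N hN]
        exact ⟨fun c => rfl, h5.symm⟩
  have h0 : volume ((Set.univ : Set (Fin m → ℝ)) ×ˢ {(1 : ℝ)}) = 0 := by
    rw [Measure.volume_eq_prod, Measure.prod_prod, Real.volume_singleton, mul_zero]
  have h1 : volume S ≤ ENNReal.ofReal ((Q.card : ℝ) / (N : ℝ) ^ (m + 1)) := by
    refine (measure_mono hcov).trans ((measure_union_le _ _).trans ?_)
    rw [h0, zero_add]
    refine (measure_biUnion_finset_le _ _).trans (le_of_eq ?_)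
    rw [Finset.sum_congr rfl fun z _ => boxv_vol m N hN z, Finset.sum_const, nsmul_eq_mul,
      ← ENNReal.ofReal_natCast, ← ENNReal.ofReal_mul (by positivity)]
    congr 1
    ring
  have h2 := hvol.trans h1
  rw [ENNReal.ofReal_le_ofReal_iff (by positivity), le_div_iff₀ (by positivity)] at h2
  rw [hQ] at h2
  exact h2

end Pool.Agent.Helper70.SK
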