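import Pool.Agent.Helper70.SK.Stmts3
import Pool.Agent.Helper50.DK.VOL

set_option autoImplicit false

/-! RSH: translations of slopes and heights (real shears). -/

namespace Pool.Agent.Helper70.SK

open Finset Pool.Agent.Helper70.DK MeasureTheory

/-- the shear -/
noncomputable def rshF {m : ℕ} (v : Fin m → ℝ) (k : ℝ) (p : EuclideanSpace ℝ (Fin (m + 1))) :
    EuclideanSpace ℝ (Fin (m + 1)) :=
  pt (fun c => p c.castSucc + p (Fin.last m) * v c) (p (Fin.last m) + k)

theorem rsh_last {m : ℕ} (v : Fin m → ℝ) (k : ℝ) (p : EuclideanSpace ℝ (Fin (m + 1))) :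
    rshF v k p (Fin.last m) = p (Fin.last m) + k := by
  simp [rshF, pt]

theorem rsh_cast {m : ℕ} (v : Fin m → ℝ) (k : ℝ) (p : EuclideanSpace ℝ (Fin (m + 1)))
    (c : Fin m) : rshF v k p c.castSucc = p c.castSucc + p (Fin.last m) * v c := by
  simp [rshF, pt]

theorem rsh_coord {n : ℕ} (p q : EuclideanSpace ℝ (Fin n)) (i : Fin n) :
    |p i - q i| ≤ dist p q := by
  rw [EuclideanSpace.dist_eq]
  refine Real.le_sqrt_of_sq_le ?_
  have h1 := Finset.single_le_sum (f := fun j => dist (p j) (q j) ^ 2)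
    (fun j _ => sq_nonneg _) (Finset.mem_univ i)
  have h2 : |p i - q i| ^ 2 = dist (p i) (q i) ^ 2 := by rw [Real.dist_eq]
  rw [h2]
  exact h1

theorem rsh_lip {m : ℕ} (M : ℝ) (hM : 0 ≤ M) (v : Fin m → ℝ) (k : ℝ) (hv : ∀ c, |v c| ≤ M)
    (p q : EuclideanSpace ℝ (Fin (m + 1))) :
    dist (rshF v k p) (rshF v k q) ≤ ((m + 1) * (M + 1)) * dist p q := by
  have hd : 0 ≤ dist p q := dist_nonneg
  have hm : (0 : ℝ) ≤ m := Nat.cast_nonneg m
  have h1 : ∀ i : Fin (m + 1), dist (rshF v k p i) (rshF v k q i) ^ 2 ≤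
      ((M + 1) * dist p q) ^ 2 := by
    intro i
    refine pow_le_pow_left₀ dist_nonneg ?_ 2
    rw [Real.dist_eq]
    refine Fin.lastCases ?_ (fun c => ?_) i
    · rw [rsh_last, rsh_last]
      have h2 := rsh_coord p q (Fin.last m)
      have h3 : p (Fin.last m) + k - (q (Fin.last m) + k) = p (Fin.last m) - q (Fin.last m) := by
        ring
      rw [h3]
      nlinarith
    · rw [rsh_cast, rsh_cast]
      have h2 := rsh_coord p q (Fin.last m)
      have h4 := rsh_coord p q c.castSucc
      have h3 : p c.castSucc + p (Fin.last m) * v c - (q c.castSucc + q (Fin.last m) * v c) =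
          (p c.castSucc - q c.castSucc) + (p (Fin.last m) - q (Fin.last m)) * v c := by
        ring
      rw [h3]
      calc |(p c.castSucc - q c.castSucc) + (p (Fin.last m) - q (Fin.last m)) * v c|
          ≤ |p c.castSucc - q c.castSucc| + |(p (Fin.last m) - q (Fin.last m)) * v c| :=
            abs_add_le _ _
        _ = |p c.castSucc - q c.castSucc| + |p (Fin.last m) - q (Fin.last m)| * |v c| := by
            rw [abs_mul]
        _ ≤ dist p q + dist p q * M :=
            add_le_add h4 (mul_le_mul h2 (hv c) (abs_nonneg _) hd)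
        _ = (M + 1) * dist p q := by ring
  rw [EuclideanSpace.dist_eq]
  refine Real.sqrt_le_iff.2 ⟨by positivity, ?_⟩
  refine (Finset.sum_le_sum fun i _ => h1 i).trans ?_
  rw [Finset.sum_const, Finset.card_univ, Fintype.card_fin, nsmul_eq_mul]
  push_cast
  have h6 : ((m : ℝ) + 1) ≤ (m + 1) ^ 2 := by nlinarith
  calc ((m : ℝ) + 1) * ((M + 1) * dist p q) ^ 2 ≤ (m + 1) ^ 2 * ((M + 1) * dist p q) ^ 2 :=
        mul_le_mul_of_nonneg_right h6 (sq_nonneg _)
    _ = ((m + 1) * (M + 1) * dist p q) ^ 2 := by ring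

theorem rsh_cont {m : ℕ} (v : Fin m → ℝ) (k : ℝ) : Continuous (rshF v k) := by
  have hM0 : (0 : ℝ) ≤ ∑ c, |v c| := Finset.sum_nonneg fun _ _ => abs_nonneg _
  have hM : ∀ c, |v c| ≤ ∑ c, |v c| := fun c =>
    Finset.single_le_sum (f := fun c => |v c|) (fun _ _ => abs_nonneg _) (Finset.mem_univ c)
  have h2 : LipschitzWith (Real.toNNReal ((m + 1) * ((∑ c, |v c|) + 1))) (rshF v k) := by
    refine LipschitzWith.of_dist_le_mul fun p q => ?_
    rw [Real.coe_toNNReal _ (by positivity)]
    exact rsh_lip _ hM0 v k hM p q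
  exact h2.continuous

theorem rsh_vol {m : ℕ} (v : Fin m → ℝ) (k : ℝ) (U : Set (EuclideanSpace ℝ (Fin (m + 1))))
    (hU : IsOpen U) : volume (rshF v k ⁻¹' U) = volume U := by
  have hg := vol_mp m
  have hU' : IsOpen (rshF v k ⁻¹' U) := hU.preimage (rsh_cont v k)
  have h1 := hg.measure_preimage hU.measurableSet.nullMeasurableSet
  have h2 := hg.measure_preimage hU'.measurableSet.nullMeasurableSet
  have hΨ : MeasurePreserving (fun p : ℝ × (Fin m → ℝ) =>
      ((p.1 + k : ℝ), (fun y : Fin m → ℝ => y + (fun c => p.1 * v c)) p.2))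
      (volume.prod volume) (volume.prod volume) := by
    refine MeasurePreserving.skew_product (measurePreserving_add_right volume (k : ℝ))
      (g := fun t y => y + (fun c => t * v c)) ?_ ?_
    · have : Continuous (Function.uncurry (fun (t : ℝ) (y : Fin m → ℝ) =>
          y + (fun c => t * v c))) := by
        refine continuous_snd.add (continuous_pi fun c => ?_)
        exact continuous_fst.mul continuous_const
      exact this.measurable
    · refine Filter.Eventually.of_forall fun t => ?_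
      exact (measurePreserving_add_right volume (fun c => t * v c)).map_eq
  have hmeas : MeasurableSet ((fun p : ℝ × (Fin m → ℝ) =>
      (pt p.2 p.1 : EuclideanSpace ℝ (Fin (m + 1)))) ⁻¹' U) := hg.measurable hU.measurableSet
  have h3 := hΨ.measure_preimage hmeas.nullMeasurableSet
  rw [← h1, ← h2, Measure.volume_eq_prod, ← h3]
  congr 1
  ext ⟨t, y⟩
  show rshF v k (pt y t) ∈ U ↔ pt (y + fun c => t * v c) (t + k) ∈ U
  have h4 : rshF v k (pt y t) = pt (y + fun c => t * v c) (t + k) := by
    have e1 : (pt y t : EuclideanSpace ℝ (Fin (m + 1))) (Fin.last m) = t := by simp [pt]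
    have e2 : ∀ c : Fin m, (pt y t : EuclideanSpace ℝ (Fin (m + 1))) c.castSucc = y c := by
      intro c
      simp [pt]
    unfold rshF
    rw [e1]
    congr 1
    funext c
    rw [e2]
    rfl
  rw [h4]

theorem st_RSH : ST_RSH := by
  intro m M hM
  have hm : (0 : ℝ) ≤ m := Nat.cast_nonneg m
  have hK1 : (1 : ℝ) ≤ (m + 1) * (M + 1) := by nlinarith
  refine ⟨(m + 1) * (M + 1), hK1, ?_⟩
  intro v k hv E δ hδ
  set K : ℝ := (m + 1) * (M + 1) with hK
  have hK0 : 0 < K := by linarith
  have hsub : Metric.thickening (δ / K) {p : EuclideanSpace ℝ (Fin (m + 1)) |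
        pt (fun c => p c.castSucc + p (Fin.last m) * v c) (p (Fin.last m) + k) ∈ E} ⊆
      rshF v k ⁻¹' (Metric.thickening δ E) := by
    intro p hp
    rw [Metric.mem_thickening_iff] at hp
    obtain ⟨q, hq, hpq⟩ := hp
    show rshF v k p ∈ Metric.thickening δ E
    rw [Metric.mem_thickening_iff]
    refine ⟨rshF v k q, hq, ?_⟩
    refine lt_of_le_of_lt (rsh_lip M hM v k hv p q) ?_
    rw [← hK]
    rw [lt_div_iff₀ hK0] at hpq
    linarith
  refine (measure_mono hsub).trans (le_of_eq ?_)
  exact rsh_vol v k _ Metric.isOpen_thickening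

end Pool.Agent.Helper70.SK
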