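import Pool.Agent.Helper70.SK.Stmts3

set_option autoImplicit false

/-! THR: threshold. -/

namespace Pool.Agent.Helper70.SK

open Finset Pool.Agent.Helper70.DK MeasureTheory

theorem thr_pt (w : ℝ) (hw : w ≤ 1) (K : ℕ) : w ≤ Real.exp (-(K : ℝ)) +
    ∑ k ∈ Finset.range K, Real.exp (-(k : ℝ)) *
      (if Real.exp (-((k + 1 : ℕ) : ℝ)) ≤ w then (1 : ℝ) else 0) := by
  induction K with
  | zero => simpa using hw
  | succ K ih =>
    rw [Finset.sum_range_succ]
    by_cases h : Real.exp (-((K + 1 : ℕ) : ℝ)) ≤ w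
    · rw [if_pos h]
      have := Real.exp_pos (-((K + 1 : ℕ) : ℝ))
      linarith
    · rw [if_neg h]
      rw [not_le] at h
      have h0 : 0 ≤ ∑ k ∈ Finset.range K, Real.exp (-(k : ℝ)) *
          (if Real.exp (-((k + 1 : ℕ) : ℝ)) ≤ w then (1 : ℝ) else 0) := by
        refine Finset.sum_nonneg fun k _ => mul_nonneg (Real.exp_pos _).le ?_
        split_ifs <;> norm_num
      linarith

theorem thr_geom (K : ℕ) : (∑ k ∈ Finset.range K, Real.exp ((k : ℝ) - 2)) * (Real.exp 1 - 1) =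
    Real.exp ((K : ℝ) - 2) - Real.exp (-2) := by
  induction K with
  | zero => simp
  | succ K ih =>
    rw [Finset.sum_range_succ, add_mul, ih]
    have : Real.exp (((K + 1 : ℕ) : ℝ) - 2) = Real.exp ((K : ℝ) - 2) * Real.exp 1 := by
      rw [← Real.exp_add]
      congr 1
      push_cast
      ring
    rw [this]
    ring

theorem st_THR : ST_THR := by
  intro δ A w Z hA hw hZ hsum
  by_contra hcon
  push Not at hcon
  have hq : (0 : ℝ) < A.card := by
    have := Finset.card_pos.2 hA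
    exact_mod_cast this
  have hZ1 : Z ≤ 1 := by
    have h1 : ∑ d ∈ A, w d ≤ ∑ _d ∈ A, (1 : ℝ) := Finset.sum_le_sum fun d hd => (hw d hd).2
    rw [hsum, Finset.sum_const, nsmul_eq_mul, mul_one] at h1
    by_contra h
    rw [not_le] at h
    nlinarith
  obtain ⟨z, hz⟩ : ∃ z : ℝ, z = -Real.log Z := ⟨_, rfl⟩
  have hz0 : 0 ≤ z := by
    rw [hz]
    have := Real.log_nonpos hZ.le hZ1
    linarith
  have hexpz : Real.exp (-z) = Z := by rw [hz, neg_neg, Real.exp_log hZ]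
  obtain ⟨K, hK⟩ : ∃ K : ℕ, K = ⌈z⌉₊ + 1 := ⟨_, rfl⟩
  have hK1 : z + 1 ≤ K := by
    rw [hK]
    push_cast
    have := Nat.le_ceil z
    linarith
  have hK2 : (K : ℝ) ≤ z + 2 := by
    rw [hK]
    push_cast
    have := (Nat.ceil_lt_add_one hz0).le
    linarith
  -- sum over `A`
  have h1 : ∑ d ∈ A, w d ≤ ∑ d ∈ A, (Real.exp (-(K : ℝ)) +
      ∑ k ∈ Finset.range K, Real.exp (-(k : ℝ)) *
        (if Real.exp (-((k + 1 : ℕ) : ℝ)) ≤ w d then (1 : ℝ) else 0)) :=
    Finset.sum_le_sum fun d hd => thr_pt (w d) (hw d hd).2 K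
  rw [Finset.sum_add_distrib, Finset.sum_const, nsmul_eq_mul, Finset.sum_comm] at h1
  have h2 : ∀ k ∈ Finset.range K, ∑ d ∈ A, Real.exp (-(k : ℝ)) *
      (if Real.exp (-((k + 1 : ℕ) : ℝ)) ≤ w d then (1 : ℝ) else 0) ≤
      (A.card : ℝ) * Z ^ 2 * Real.exp ((k : ℝ) - 2) := by
    intro k _
    rw [← Finset.mul_sum, Finset.sum_boole]
    have h3 := (hcon (k + 1)).le
    have h4 : Real.exp (-(k : ℝ)) * ((A.filter (fun d => Real.exp (-((k + 1 : ℕ) : ℝ)) ≤ w d)).card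
        : ℝ) ≤ Real.exp (-(k : ℝ)) * ((A.card : ℝ) *
          (Z ^ 2 * Real.exp (2 * ((k + 1 : ℕ) : ℝ) - 4))) :=
      mul_le_mul_of_nonneg_left h3 (Real.exp_pos _).le
    refine h4.trans (le_of_eq ?_)
    have h5 : Real.exp ((k : ℝ) - 2) = Real.exp (-(k : ℝ)) *
        Real.exp (2 * ((k + 1 : ℕ) : ℝ) - 4) := by
      rw [← Real.exp_add]
      congr 1
      push_cast
      ring
    rw [h5]
    ring
  have h3 := h1.trans (add_le_add le_rfl (Finset.sum_le_sum h2))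
  rw [← Finset.mul_sum, hsum] at h3
  have he : (2.7 : ℝ) < Real.exp 1 := by
    have := Real.exp_one_gt_d9
    linarith
  obtain ⟨e, he'⟩ : ∃ e : ℝ, e = Real.exp 1 := ⟨_, rfl⟩
  obtain ⟨G, hG⟩ : ∃ G : ℝ, G = ∑ k ∈ Finset.range K, Real.exp ((k : ℝ) - 2) := ⟨_, rfl⟩
  have hgeo := thr_geom K
  rw [← hG, ← he'] at hgeo
  rw [← hG] at h3
  rw [← he'] at he
  have h4 : Real.exp (-(K : ℝ)) ≤ Z / e := by
    have : Real.exp (-(K : ℝ)) ≤ Real.exp (-z - 1) := Real.exp_le_exp.2 (by linarith)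
    rw [Real.exp_sub, hexpz, ← he'] at this
    exact this
  have h5 : Real.exp ((K : ℝ) - 2) ≤ 1 / Z := by
    have : Real.exp ((K : ℝ) - 2) ≤ Real.exp z := Real.exp_le_exp.2 (by linarith)
    have h6 : Real.exp z = 1 / Z := by
      rw [← hexpz, Real.exp_neg]
      simp
    rwa [h6] at this
  have h6 : G * (e - 1) ≤ 1 / Z := by
    rw [hgeo]
    have := Real.exp_pos (-2)
    linarith
  have h7 : Z ^ 2 * G ≤ Z / (e - 1) := by
    rw [le_div_iff₀ (by linarith)]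
    have h8 : Z ^ 2 * (G * (e - 1)) ≤ Z ^ 2 * (1 / Z) := mul_le_mul_of_nonneg_left h6 (by positivity)
    have h9 : Z ^ 2 * (1 / Z) = Z := by
      field_simp
    linarith
  have h8 : Z ≤ Z / e + Z / (e - 1) := by
    have h9 : Z * (A.card : ℝ) ≤ (A.card : ℝ) * (Z / e + Z / (e - 1)) := by
      refine h3.trans ?_
      have a1 : (A.card : ℝ) * Real.exp (-(K : ℝ)) ≤ (A.card : ℝ) * (Z / e) :=
        mul_le_mul_of_nonneg_left h4 hq.le
      have a2 : (A.card : ℝ) * (Z ^ 2 * G) ≤ (A.card : ℝ) * (Z / (e - 1)) :=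
        mul_le_mul_of_nonneg_left h7 hq.le
      calc (A.card : ℝ) * Real.exp (-(K : ℝ)) + (A.card : ℝ) * Z ^ 2 * G
          = (A.card : ℝ) * Real.exp (-(K : ℝ)) + (A.card : ℝ) * (Z ^ 2 * G) := by ring
        _ ≤ _ := by linarith
    rw [mul_comm] at h9
    exact le_of_mul_le_mul_left h9 hq
  have h9 : Z / e ≤ Z * (10 / 27) := by
    rw [div_le_iff₀ (by linarith)]
    nlinarith
  have h10 : Z / (e - 1) ≤ Z * (10 / 17) := by
    rw [div_le_iff₀ (by linarith)]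
    nlinarith
  nlinarith

end Pool.Agent.Helper70.SK
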