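import Pool.Agent.Helper70.SK.Stmts3

set_option autoImplicit false

/-! UC: unit cube, all scales. -/

namespace Pool.Agent.Helper70.SK

open Finset Pool.Agent.Helper70.DK MeasureTheory

theorem st_UC (hONE : ST_ONE) : ST_UC := by
  intro m C lam ε hm hlam hε
  obtain ⟨B, c, K, hB, hc, hK, H⟩ := hONE m (max C 1) lam ε hm (le_max_right _ _) hlam hε
  have hb0 : (0 : ℝ) < B := by
    have : 0 < B := by omega
    exact_mod_cast this
  have hb1 : (1 : ℝ) < B := by
    have : 1 < B := by omega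
    exact_mod_cast this
  have hBi1 : (B : ℝ)⁻¹ < 1 := by
    rw [inv_lt_one₀ hb0]
    exact hb1
  have hBi0 : (0 : ℝ) < (B : ℝ)⁻¹ := by positivity
  have hK0 : 0 < K := by linarith
  refine ⟨c * ((B : ℝ)⁻¹ / K) ^ ε, by positivity, ?_⟩
  intro L hL E hE δ hδ0 hδ1
  have hL' : Content m (max C 1) L := by
    intro j
    obtain ⟨F, hF, hF'⟩ := hL j
    refine ⟨F, hF.trans ?_, hF'⟩
    exact mul_le_mul_of_nonneg_right (le_max_left _ _) (by positivity)
  have hx0 : 0 < δ / K := by positivity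
  have hx1 : δ / K ≤ 1 := by
    rw [div_le_one hK0]
    linarith
  obtain ⟨n, hn1, hn2⟩ := exists_nat_pow_near_of_lt_one hx0 hx1 hBi0 hBi1
  have h1 := H L hL' E hE (n + 1)
  have h2 : K * (B : ℝ)⁻¹ ^ (n + 1) ≤ δ := by
    rw [lt_div_iff₀ hK0] at hn1
    linarith
  refine le_trans (ENNReal.ofReal_le_ofReal ?_) (h1.trans (measure_mono
    (Metric.thickening_mono h2 E)))
  rw [mul_assoc]
  refine mul_le_mul_of_nonneg_left ?_ hc.le
  rw [← Real.mul_rpow (by positivity) hδ0.le]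
  refine Real.rpow_le_rpow (by positivity) ?_ hε.le
  have h3 : (B : ℝ)⁻¹ / K * δ = (B : ℝ)⁻¹ * (δ / K) := by ring
  rw [h3, pow_succ']
  exact mul_le_mul_of_nonneg_left hn2 hBi0.le

end Pool.Agent.Helper70.SK
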